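import Pool.Agent.H317.GR.StmC

/-!
Project GR (helper317), S_UNI: commutators of unipotents and flags
-/

set_option autoImplicit false

namespace Pool.Agent.H333.GR

open Matrix Module Pool.Agent.H317.GR
open scoped commutatorElement

section flag

variable {K V : Type} [Field K] [AddCommGroup V] [Module K V] [FiniteDimensional K V]

/-- The inverse of an operator which preserves a flag preserves the flag. -/
theorem inv_pres (F : ℕ → Submodule K V) (A A' : Module.End K V) (h : A' * A = 1)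
    (hp : ∀ j, ∀ v ∈ F j, A v ∈ F j) : ∀ j, ∀ v ∈ F j, A' v ∈ F j := by
  intro j v hv
  have h2 : ∀ z, A' (A z) = z := fun z => LinearMap.congr_fun h z
  have hinj : Function.Injective A := by
    intro x y hxy
    have h1 : A' (A x) = A' (A y) := by rw [hxy]
    rwa [h2, h2] at h1
  have hle : (F j).map A ≤ F j := by
    rintro _ ⟨w, hw, rfl⟩
    exact hp j w hw
  have heq : (F j).map A = F j :=
    Submodule.eq_of_le_of_finrank_eq hle
      (Submodule.equivMapOfInjective A hinj (F j)).finrank_eq.symm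
  rw [← heq] at hv
  obtain ⟨w, hw, rfl⟩ := hv
  rw [h2]
  exact hw

/-- Commutators of operators which are unipotent for a flag. -/
theorem comm_flag (F : ℕ → Submodule K V) (hF : Monotone F) (A A' B B' : Module.End K V)
    (r s : ℕ) (hA1 : A * A' = 1) (hA2 : A' * A = 1) (hB1 : B * B' = 1) (hB2 : B' * B = 1)
    (hA : ∀ j, ∀ v ∈ F j, A v - v ∈ F (j - r)) (hB : ∀ j, ∀ v ∈ F j, B v - v ∈ F (j - s)) :
    ∀ j, ∀ v ∈ F j, (A * B * A' * B') v - v ∈ F (j - (r + s)) := by
  intro j v hv
  have pA : ∀ j, ∀ v ∈ F j, A v ∈ F j := by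
    intro j v hv
    have h1 := hF (Nat.sub_le j r) (hA j v hv)
    have h2 : A v = (A v - v) + v := by abel
    rw [h2]
    exact (F j).add_mem h1 hv
  have pB : ∀ j, ∀ v ∈ F j, B v ∈ F j := by
    intro j v hv
    have h1 := hF (Nat.sub_le j s) (hB j v hv)
    have h2 : B v = (B v - v) + v := by abel
    rw [h2]
    exact (F j).add_mem h1 hv
  have pA' := inv_pres F A A' hA2 pA
  have pB' := inv_pres F B B' hB2 pB
  obtain ⟨w, hw⟩ : ∃ w, w = A' (B' v) := ⟨_, rfl⟩
  have hwF : w ∈ F j := by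
    rw [hw]
    exact pA' j _ (pB' j v hv)
  have hv' : v = B (A w) := by
    rw [hw]
    have h1 : A (A' (B' v)) = B' v := LinearMap.congr_fun hA1 (B' v)
    have h2 : B (B' v) = v := LinearMap.congr_fun hB1 v
    rw [h1, h2]
  have h3 : (A * B * A' * B') v = A (B w) := by
    rw [hw]
    rfl
  have h4 : (A * B * A' * B') v - v =
      (A (B w - w) - (B w - w)) - (B (A w - w) - (A w - w)) := by
    rw [h3]
    nth_rewrite 1 [hv']
    simp only [map_sub]
    abel
  rw [h4]
  refine (F (j - (r + s))).sub_mem ?_ ?_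
  · have h5 := hA (j - s) _ (hB j w hwF)
    rwa [Nat.sub_sub, add_comm s r] at h5
  · have h5 := hB (j - r) _ (hA j w hwF)
    rwa [Nat.sub_sub] at h5

end flag

theorem uni : S_UNI := by
  intro K V G _ _ _ _ _ ρ F hmono h0 htop hsc x m hm j v hv
  by_cases hV : Subsingleton V
  · have h1 : ρ (LC x m) v - v = 0 := Subsingleton.elim _ _
    rw [h1]
    exact Submodule.zero_mem _
  have hrinv : ∀ g : G, ρ g * ρ g⁻¹ = 1 := fun g => by
    rw [← map_mul, mul_inv_cancel, map_one]
  have hlinv : ∀ g : G, ρ g⁻¹ * ρ g = 1 := fun g => by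
    rw [← map_mul, inv_mul_cancel, map_one]
  -- the scalars are not zero
  have hsc' : ∀ g : G, ∃ c : K, c ≠ 0 ∧ ∀ j, ∀ v ∈ F j, (c⁻¹ • ρ g) v - v ∈ F (j - 1) := by
    intro g
    obtain ⟨c, hc⟩ := hsc g
    have hc0 : c ≠ 0 := by
      rintro rfl
      have h1 : ∀ n, ∀ v ∈ F n, (ρ g ^ n) v = 0 := by
        intro n
        induction n with
        | zero =>
          intro v hv
          rw [h0, Submodule.mem_bot] at hv
          rw [hv, map_zero]
        | succ n ih =>
          intro v hv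
          have h2 := hc n v hv
          rw [zero_smul, sub_zero] at h2
          rw [pow_succ]
          exact ih _ h2
      have h2 : ∀ v : V, v = 0 := by
        intro v
        have h3 := h1 (finrank K V) v (by rw [htop]; trivial)
        have h4 : ∀ n : ℕ, ρ g⁻¹ ^ n * ρ g ^ n = 1 := by
          intro n
          rw [← map_pow, ← map_pow, ← map_mul, inv_pow, inv_mul_cancel, map_one]
        have h5 : (ρ g⁻¹ ^ finrank K V) ((ρ g ^ finrank K V) v) = v :=
          LinearMap.congr_fun (h4 (finrank K V)) v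
        rw [h3, map_zero] at h5
        exact h5.symm
      exact hV ⟨fun a b => by rw [h2 a, h2 b]⟩
    refine ⟨c, hc0, ?_⟩
    intro j v hv
    rcases j with _ | i
    · rw [h0, Submodule.mem_bot] at hv
      rw [hv, map_zero, sub_zero]
      exact Submodule.zero_mem _
    · have h1 := (F i).smul_mem c⁻¹ (hc i v hv)
      rw [smul_sub, smul_smul, inv_mul_cancel₀ hc0, one_smul] at h1
      exact h1
  -- commutators
  have hcomm : ∀ (a b : G) (c e : K) (r s : ℕ), c ≠ 0 → e ≠ 0 →
      (∀ j, ∀ v ∈ F j, (c⁻¹ • ρ a) v - v ∈ F (j - r)) →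
      (∀ j, ∀ v ∈ F j, (e⁻¹ • ρ b) v - v ∈ F (j - s)) →
      ∀ j, ∀ v ∈ F j, ρ ⁅a, b⁆ v - v ∈ F (j - (r + s)) := by
    intro a b c e r s hc he ha hb j v hv
    have key := comm_flag F hmono (c⁻¹ • ρ a) (c • ρ a⁻¹) (e⁻¹ • ρ b) (e • ρ b⁻¹) r s
      (by rw [smul_mul_smul_comm, inv_mul_cancel₀ hc, one_smul, hrinv])
      (by rw [smul_mul_smul_comm, mul_inv_cancel₀ hc, one_smul, hlinv])
      (by rw [smul_mul_smul_comm, inv_mul_cancel₀ he, one_smul, hrinv])
      (by rw [smul_mul_smul_comm, mul_inv_cancel₀ he, one_smul, hlinv]) ha hb j v hv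
    have h1 : c⁻¹ • ρ a * e⁻¹ • ρ b * c • ρ a⁻¹ * e • ρ b⁻¹ = ρ ⁅a, b⁆ := by
      rw [smul_mul_smul_comm, smul_mul_smul_comm, smul_mul_smul_comm, commutatorElement_def,
        map_mul, map_mul, map_mul]
      have h2 : c⁻¹ * e⁻¹ * c * e = 1 := by
        field_simp
      rw [h2, one_smul]
    rwa [h1] at key
  have main : ∀ m, 1 ≤ m → ∀ j, ∀ v ∈ F j, ρ (LC x m) v - v ∈ F (j - (m + 1)) := by
    intro m hm
    induction m, hm using Nat.le_induction with
    | base =>
      obtain ⟨c, hc, h1⟩ := hsc' (x 0)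
      obtain ⟨e, he, h2⟩ := hsc' (x 1)
      exact hcomm (x 0) (x 1) c e 1 1 hc he h1 h2
    | succ m hm ih =>
      obtain ⟨e, he, h2⟩ := hsc' (x (m + 1))
      refine hcomm (LC x m) (x (m + 1)) 1 e (m + 1) 1 one_ne_zero he ?_ h2
      intro j v hv
      rw [inv_one, one_smul]
      exact ih j v hv
  exact main m hm j v hv

end Pool.Agent.H333.GR
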